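import Pool.Agent.Q231.VT.Mom

/-!
# The moment on the critical line is bounded by the moments on the lines `Re s = 1/2 + a / log T`
-/

set_option autoImplicit false

open Complex Set Filter Topology MeasureTheory Metric

namespace Pool.Agent.Q231.VT

open Pool.Agent.Q85.Mom

/-- one window -/
lemma window0 {k : ℕ} (hk : 1 ≤ k) : ∃ C T₀ : ℝ, 1 ≤ C ∧ 3 ≤ T₀ ∧ ∀ S x : ℝ, T₀ ≤ S → 0 ≤ x → x ≤ 1 / 8 →
    ∫ t in S..(8 * S), ‖z t‖ ^ (2 * k) ≤
      1 + ((1 + C) * Real.exp (x * (Real.log S / 2 + C))) ^ (2 * k) *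
        ∫ t in (S - Real.log S)..(8 * S + Real.log S), ‖zx x t‖ ^ (2 * k) := by
  obtain ⟨C, T₀, hC, hT₀, h⟩ := line0
  set p : ℝ := ((2 * k : ℕ) : ℝ) with hp
  have hp1 : 1 ≤ p := by
    rw [hp]
    exact_mod_cast (by omega : 1 ≤ 2 * k)
  have hp0 : 0 < p := by linarith
  refine ⟨C, T₀, hC, hT₀, fun S x hS hx hx8 => ?_⟩
  have hS3 : 3 ≤ S := hT₀.trans hS
  have hS0 : 0 < S := by linarith
  have hlog0 : 0 ≤ Real.log S := Real.log_nonneg (by linarith)
  have hlogS : Real.log S ≤ S := Real.log_le_self hS0.le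
  set A : ℝ := ∫ t in S..(8 * S), ‖z t‖ ^ p with hA
  set A' : ℝ := ∫ t in (S - Real.log S)..(8 * S + Real.log S), ‖zx x t‖ ^ p with hA'
  have eA : ∫ t in S..(8 * S), ‖z t‖ ^ (2 * k) = A := by
    rw [hA]
    refine intervalIntegral.integral_congr fun t _ => ?_
    simp only [hp, Real.rpow_natCast]
  have eA' : ∫ t in (S - Real.log S)..(8 * S + Real.log S), ‖zx x t‖ ^ (2 * k) = A' := by
    rw [hA']
    refine intervalIntegral.integral_congr fun t _ => ?_
    simp only [hp, Real.rpow_natCast]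
  rw [eA, eA']
  have hA0 : nrm p S (8 * S) z ^ p = A := nrm_pow hp0 (by linarith) _
  have hA'0 : nrm p (S - Real.log S) (8 * S + Real.log S) (zx x) ^ p = A' := nrm_pow hp0 (by linarith) _
  have hn0 : 0 ≤ nrm p (S - Real.log S) (8 * S + Real.log S) (zx x) := nrm_nonneg (by linarith) _
  have hn1 : 0 ≤ nrm p S (8 * S) z := nrm_nonneg (by linarith) _
  have hA'n : 0 ≤ A' := int_nonneg (by linarith) _
  set K : ℝ := (1 + C) * Real.exp (x * (Real.log S / 2 + C)) with hK
  have hK0 : 0 ≤ K := by positivity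
  rcases lt_or_ge (nrm p S (8 * S) z) 1 with h0 | h0
  · have h1 : nrm p S (8 * S) z ^ p ≤ 1 := Real.rpow_le_one hn1 h0.le hp0.le
    rw [hA0] at h1
    have h2 : 0 ≤ K ^ (2 * k) * A' := by positivity
    linarith
  have h1 := h p S S (8 * S) x hp1 hS (by linarith) (by linarith) (by linarith) hx hx8 h0
  have h2 : nrm p S (8 * S) z ≤ K * nrm p (S - Real.log S) (8 * S + Real.log S) (zx x) := by
    refine h1.trans (mul_le_mul_of_nonneg_right ?_ hn0)
    refine mul_le_mul_of_nonneg_right ?_ (Real.exp_pos _).le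
    have : C * Real.log S / S ≤ C := by
      rw [div_le_iff₀ hS0]
      exact mul_le_mul_of_nonneg_left hlogS (by linarith)
    linarith
  have h3 : A ≤ K ^ (2 * k) * A' := by
    rw [← hA0, ← hA'0]
    calc nrm p S (8 * S) z ^ p ≤ (K * nrm p (S - Real.log S) (8 * S + Real.log S) (zx x)) ^ p :=
          Real.rpow_le_rpow hn1 h2 hp0.le
      _ = K ^ p * nrm p (S - Real.log S) (8 * S + Real.log S) (zx x) ^ p := Real.mul_rpow hK0 hn0
      _ = K ^ (2 * k) * nrm p (S - Real.log S) (8 * S + Real.log S) (zx x) ^ p := by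
          congr 1
          rw [hp, Real.rpow_natCast]
  linarith

/-- the moment on the critical line, from moments on the lines `1/2 + a / log T` -/
theorem MB_of_line {k : ℕ} (hk : 1 ≤ k) {a B₀ T₁ : ℝ} (ha : 0 ≤ a)
    (h : ∀ T : ℝ, T₁ ≤ T → ∫ t in (0 : ℝ)..T, ‖zx (a / Real.log T) t‖ ^ (2 * k) ≤ B₀ * T * Real.log T ^ (k ^ 2)) :
    ∃ B : ℝ, MB k B := by
  obtain ⟨C, T₀, hC, hT₀, hw⟩ := window0 hk
  obtain ⟨T₂, hT₂⟩ := eventually_atTop.1 ((Real.tendsto_log_atTop.eventually_ge_atTop (8 * a + 1)).and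
    ((eventually_ge_atTop T₀).and (eventually_ge_atTop T₁)))
  set S₀ : ℝ := max T₂ 3 with hS₀
  have hS₀3 : 3 ≤ S₀ := le_max_right _ _
  set B₁ : ℝ := max B₀ 0 with hB₁
  have hB₁0 : 0 ≤ B₁ := le_max_right _ _
  set K : ℝ := ((1 + C) * Real.exp (a * (1 + C))) ^ (2 * k) with hK
  have hK0 : 0 ≤ K := by positivity
  -- one window
  have hwin : ∀ S T : ℝ, S₀ ≤ S → S ≤ T / 8 → ∫ t in S..(8 * S), ‖z t‖ ^ (2 * k) ≤
      9 * S * ((1 + K * B₁) * (2 * Real.log T) ^ (k ^ 2)) := by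
    intro S T hS hST
    have hS3 : 3 ≤ S := hS₀3.trans hS
    have hS0 : 0 < S := by linarith
    have hT0 : 0 < T := by linarith
    obtain ⟨g1, g2, g3⟩ := hT₂ (9 * S) (by
      have := le_max_left T₂ 3
      linarith)
    obtain ⟨g4, g5, g6⟩ := hT₂ S (by
      have := le_max_left T₂ 3
      linarith)
    have hlogS : Real.log S ≤ S := Real.log_le_self hS0.le
    have hlogS1 : 1 ≤ Real.log S := by linarith
    have hlog9 : Real.log S ≤ Real.log (9 * S) := Real.log_le_log hS0 (by linarith)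
    have hlog90 : 0 < Real.log (9 * S) := by linarith
    set x : ℝ := a / Real.log (9 * S) with hx
    have hx0 : 0 ≤ x := by positivity
    have hx8 : x ≤ 1 / 8 := by
      rw [hx, div_le_iff₀ hlog90]
      linarith
    have h1 := hw S x g5 hx0 hx8
    have h2 : x * (Real.log S / 2 + C) ≤ a * (1 + C) := by
      have e1 : x * Real.log S ≤ a := by
        have : x * Real.log (9 * S) = a := by
          rw [hx]
          field_simp
        nlinarith
      have e2 : x ≤ a := by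
        rw [hx]
        exact div_le_self ha (by linarith)
      have e3 : x * C ≤ a * C := mul_le_mul_of_nonneg_right e2 (by linarith)
      nlinarith
    have h3 : ((1 + C) * Real.exp (x * (Real.log S / 2 + C))) ^ (2 * k) ≤ K := by
      rw [hK]
      refine pow_le_pow_left₀ (by positivity) (mul_le_mul_of_nonneg_left (Real.exp_le_exp.2 h2) (by linarith)) _
    have hx4 : |x| ≤ 1 / 4 := by
      rw [abs_of_nonneg hx0]
      linarith
    have h4 : ∫ t in (S - Real.log S)..(8 * S + Real.log S), ‖zx x t‖ ^ (2 * k) ≤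
        ∫ t in (0 : ℝ)..(9 * S), ‖zx x t‖ ^ (2 * k) :=
      mono_int (zxk_c hx4 k) (fun t => by positivity) (by linarith) (by linarith) (by linarith)
    have h5 := h (9 * S) g3
    have h8 : Real.log (9 * S) ≤ 2 * Real.log T := by
      rw [← Real.log_rpow hT0, Real.log_le_log_iff (by linarith) (by positivity)]
      rw [show (2 : ℝ) = ((2 : ℕ) : ℝ) by norm_num, Real.rpow_natCast]
      nlinarith
    have h9 : Real.log (9 * S) ^ (k ^ 2) ≤ (2 * Real.log T) ^ (k ^ 2) := pow_le_pow_left₀ hlog90.le h8 _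
    have h9' : 1 ≤ (2 * Real.log T) ^ (k ^ 2) := one_le_pow₀ (by linarith)
    have h10 : ∫ t in (S - Real.log S)..(8 * S + Real.log S), ‖zx x t‖ ^ (2 * k) ≤
        9 * S * (B₁ * (2 * Real.log T) ^ (k ^ 2)) := by
      refine (h4.trans h5).trans ?_
      calc B₀ * (9 * S) * Real.log (9 * S) ^ (k ^ 2) = B₀ * ((9 * S) * Real.log (9 * S) ^ (k ^ 2)) := by ring
        _ ≤ B₁ * ((9 * S) * Real.log (9 * S) ^ (k ^ 2)) :=
            mul_le_mul_of_nonneg_right (le_max_left _ _) (by positivity)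
        _ ≤ B₁ * ((9 * S) * (2 * Real.log T) ^ (k ^ 2)) := by gcongr
        _ = _ := by ring
    have h11 : 0 ≤ ∫ t in (S - Real.log S)..(8 * S + Real.log S), ‖zx x t‖ ^ (2 * k) :=
      intervalIntegral.integral_nonneg (by linarith) fun t _ => by positivity
    have h12 : ((1 + C) * Real.exp (x * (Real.log S / 2 + C))) ^ (2 * k) *
        ∫ t in (S - Real.log S)..(8 * S + Real.log S), ‖zx x t‖ ^ (2 * k) ≤
          K * (9 * S * (B₁ * (2 * Real.log T) ^ (k ^ 2))) := mul_le_mul h3 h10 h11 hK0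
    have h13 : 1 ≤ 9 * S * (2 * Real.log T) ^ (k ^ 2) := by nlinarith
    calc ∫ t in S..(8 * S), ‖z t‖ ^ (2 * k) ≤ 1 + K * (9 * S * (B₁ * (2 * Real.log T) ^ (k ^ 2))) :=
          h1.trans (by linarith)
      _ ≤ 9 * S * (2 * Real.log T) ^ (k ^ 2) + K * (9 * S * (B₁ * (2 * Real.log T) ^ (k ^ 2))) := by linarith
      _ = _ := by ring
  set E : ℝ := ∫ t in (0 : ℝ)..(8 * S₀), ‖z t‖ ^ (2 * k) with hE
  have hE0 : 0 ≤ E := intervalIntegral.integral_nonneg (by linarith) fun t _ => by positivity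
  have hl2 : 0 < Real.log 2 := Real.log_pos (by norm_num)
  set m : ℝ := 2 * Real.log 2 ^ (k ^ 2) with hm
  have hm0 : 0 < m := by positivity
  refine ⟨E / m + 2 * (1 + K * B₁) * 2 ^ (k ^ 2), by positivity, fun T hT => ?_⟩
  have hT0 : 0 < T := by linarith
  have hlog : Real.log 2 ≤ Real.log T := Real.log_le_log (by norm_num) hT
  have hlog0 : 0 < Real.log T := by linarith
  set W : ℝ := (1 + K * B₁) * (2 * Real.log T) ^ (k ^ 2) with hW
  have hW0 : 0 ≤ W := by positivity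
  have base : ∀ b : ℝ, 0 ≤ b → b ≤ 8 * S₀ → ∫ t in (0 : ℝ)..b, ‖z t‖ ^ (2 * k) ≤ E + 2 * W * b := by
    intro b hb hb8
    have h1 : ∫ t in (0 : ℝ)..b, ‖z t‖ ^ (2 * k) ≤ E :=
      mono_int (zk_c k) (fun t => by positivity) le_rfl hb hb8
    have h2 : 0 ≤ 2 * W * b := by positivity
    linarith
  have key : ∀ n : ℕ, ∀ b : ℝ, 0 ≤ b → b ≤ 8 ^ n * (8 * S₀) → b ≤ T →
      ∫ t in (0 : ℝ)..b, ‖z t‖ ^ (2 * k) ≤ E + 2 * W * b := by
    intro n
    induction n with
    | zero =>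
      intro b hb h1 h2
      exact base b hb (by simpa using h1)
    | succ n ih =>
      intro b hb h1 h2
      rcases le_or_gt b (8 * S₀) with h3 | h3
      · exact base b hb h3
      set S : ℝ := b / 8 with hS
      have hbS : b = 8 * S := by rw [hS]; ring
      have hST : S₀ ≤ S := by linarith
      have hS0 : 0 < S := by linarith
      have h4 := ih S hS0.le (by rw [pow_succ] at h1; linarith) (by linarith)
      have h12 := hwin S T hST (by linarith)
      have h13 : ∫ t in (0 : ℝ)..b, ‖z t‖ ^ (2 * k) = (∫ t in (0 : ℝ)..S, ‖z t‖ ^ (2 * k)) +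
          ∫ t in S..(8 * S), ‖z t‖ ^ (2 * k) := by
        rw [hbS, intervalIntegral.integral_add_adjacent_intervals ((zk_c k).intervalIntegrable _ _)
          ((zk_c k).intervalIntegrable _ _)]
      rw [h13, hbS]
      have h14 : 0 ≤ S * W := by positivity
      nlinarith
  obtain ⟨n, hn⟩ := pow_unbounded_of_one_lt T (by norm_num : (1 : ℝ) < 8)
  have h1 := key n T hT0.le (by
    have : (1 : ℝ) ≤ 8 * S₀ := by linarith
    have h8 : (0 : ℝ) < 8 ^ n := by positivity
    nlinarith) le_rfl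
  have h4 : m ≤ T * Real.log T ^ (k ^ 2) :=
    mul_le_mul hT (pow_le_pow_left₀ hl2.le hlog _) (by positivity) hT0.le
  have hEm : 0 ≤ E / m := by positivity
  have h5 : E ≤ E / m * (T * Real.log T ^ (k ^ 2)) := by
    calc E = E / m * m := by field_simp
      _ ≤ _ := mul_le_mul_of_nonneg_left h4 hEm
  have e2 : 2 * W * T = 2 * (1 + K * B₁) * 2 ^ (k ^ 2) * (T * Real.log T ^ (k ^ 2)) := by
    rw [hW, mul_pow]
    ring
  calc ∫ t in (0 : ℝ)..T, ‖z t‖ ^ (2 * k) ≤ E + 2 * W * T := h1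
    _ ≤ E / m * (T * Real.log T ^ (k ^ 2)) + 2 * (1 + K * B₁) * 2 ^ (k ^ 2) * (T * Real.log T ^ (k ^ 2)) := by
        rw [e2]
        linarith
    _ = _ := by ring

end Pool.Agent.Q231.VT
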