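import Mathlib

/-!
# Vitali's theorem for families `f_T`, `T → ∞`, of functions holomorphic on growing discs
-/

set_option autoImplicit false

open Complex Set Filter Metric Topology

namespace Pool.Agent.Q231.VT

/-- The functions `f_T` are holomorphic and bounded on every disc, for large `T`. -/
def Bdd (f : ℝ → ℂ → ℂ) : Prop :=
  ∀ R : ℝ, ∃ M T₀ : ℝ, ∀ T : ℝ, T₀ ≤ T → DifferentiableOn ℂ (f T) (ball 0 R) ∧ ∀ z ∈ ball (0 : ℂ) R, ‖f T z‖ ≤ M

/-- uniformly bounded holomorphic functions are locally Lipschitz, uniformly (as in `H801R2.CX`) -/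
theorem lip_of_bdd {F : ℂ → ℂ} {x : ℂ} {R M : ℝ} (hd : DifferentiableOn ℂ F (ball x R))
    (hb : ∀ z ∈ ball x R, ‖F z‖ ≤ M) : ∀ z ∈ ball x R, dist (F z) (F x) ≤ (2 * M) / R * dist z x := by
  intro z hz
  have hR : 0 < R := lt_of_le_of_lt dist_nonneg hz
  apply Complex.dist_le_div_mul_dist_of_mapsTo_ball hd _ hz
  intro w hw
  rw [mem_closedBall, dist_eq_norm]
  have h1 := hb w hw
  have h2 := hb x (mem_ball_self hR)
  have h3 := norm_sub_le (F w) (F x)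
  linarith

/-- uniformly bounded holomorphic functions converging pointwise converge locally uniformly (as in `H801R2.CX`) -/
theorem tlu_pt {ι : Type*} {l : Filter ι} [l.NeBot] {U : Set ℂ} (hU : IsOpen U)
    {F : ι → ℂ → ℂ} {f : ℂ → ℂ} {M : ℝ}
    (hd : ∀ᶠ i in l, DifferentiableOn ℂ (F i) U ∧ ∀ z ∈ U, ‖F i z‖ ≤ M)
    (hp : ∀ z ∈ U, Tendsto (fun i => F i z) l (𝓝 (f z))) :
    TendstoLocallyUniformlyOn F f l U := by
  rw [Metric.tendstoLocallyUniformlyOn_iff]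
  intro ε hε x hx
  obtain ⟨R, hR, hRU⟩ := Metric.isOpen_iff.1 hU x hx
  obtain ⟨i0, hi0⟩ := hd.exists
  have hM : 0 ≤ M := le_trans (norm_nonneg _) (hi0.2 x hx)
  set L : ℝ := (2 * M + 1) / R with hL
  have hLp : 0 < L := by positivity
  have key : ∀ᶠ i in l, ∀ z ∈ ball x R, dist (F i z) (F i x) ≤ L * dist z x := by
    filter_upwards [hd] with i hi z hz
    refine (lip_of_bdd (hi.1.mono hRU) (fun w hw => hi.2 w (hRU hw)) z hz).trans ?_
    rw [hL]
    gcongr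
    linarith
  have keyf : ∀ z ∈ ball x R, dist (f z) (f x) ≤ L * dist z x := by
    intro z hz
    have h1 : Tendsto (fun i => dist (F i z) (F i x)) l (𝓝 (dist (f z) (f x))) :=
      (hp z (hRU hz)).dist (hp x hx)
    exact le_of_tendsto h1 (key.mono fun i hi => hi z hz)
  refine ⟨ball x (min R (ε / (4 * L))), mem_nhdsWithin_of_mem_nhds (ball_mem_nhds _ (by positivity)), ?_⟩
  have hx' : ∀ᶠ i in l, dist (F i x) (f x) < ε / 4 := (Metric.tendsto_nhds.1 (hp x hx)) _ (by positivity)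
  filter_upwards [hx', key] with i hi hkey y hy
  have hy1 : y ∈ ball x R := ball_subset_ball (min_le_left _ _) hy
  have hy2 : dist y x < ε / (4 * L) := lt_of_lt_of_le hy (min_le_right _ _)
  have hy3 : L * dist y x < ε / 4 := by
    calc L * dist y x < L * (ε / (4 * L)) := by gcongr
      _ = ε / 4 := by field_simp
  have h1 := hkey y hy1
  have h2 := keyf y hy1
  calc dist (f y) (F i y) ≤ dist (f y) (f x) + dist (f x) (F i x) + dist (F i x) (F i y) :=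
        dist_triangle4 _ _ _ _
    _ < ε := by
        rw [dist_comm (f x), dist_comm (F i x) (F i y)]
        linarith

lemma Bdd.ev {f : ℝ → ℂ → ℂ} (h : Bdd f) (R : ℝ) : ∃ M : ℝ, ∀ᶠ T in (atTop : Filter ℝ),
    DifferentiableOn ℂ (f T) (ball 0 R) ∧ ∀ z ∈ ball (0 : ℂ) R, ‖f T z‖ ≤ M := by
  obtain ⟨M, T₀, h1⟩ := h R
  exact ⟨M, eventually_atTop.2 ⟨T₀, h1⟩⟩

lemma mem_bl (z : ℂ) : z ∈ ball (0 : ℂ) (‖z‖ + 1) := by
  rw [mem_ball_zero_iff]
  linarith

/-- pointwise limits along a filter are entire, and the convergence is locally uniform -/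
lemma tlu {f : ℝ → ℂ → ℂ} (h : Bdd f) {l : Filter ℝ} [l.NeBot] (hl : l ≤ atTop) {g : ℂ → ℂ}
    (hg : ∀ z, Tendsto (fun T => f T z) l (𝓝 (g z))) (R : ℝ) :
    TendstoLocallyUniformlyOn f g l (ball 0 R) := by
  obtain ⟨M, hM⟩ := h.ev R
  exact tlu_pt isOpen_ball (M := M) (hM.filter_mono hl) fun z _ => hg z

lemma diff_lim {f : ℝ → ℂ → ℂ} (h : Bdd f) {l : Filter ℝ} [l.NeBot] (hl : l ≤ atTop) {g : ℂ → ℂ}
    (hg : ∀ z, Tendsto (fun T => f T z) l (𝓝 (g z))) : Differentiable ℂ g := by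
  intro z
  obtain ⟨M, hM⟩ := h.ev (‖z‖ + 1)
  have h1 := (tlu h hl hg (‖z‖ + 1)).differentiableOn
    ((hM.filter_mono hl).mono fun T hT => hT.1) isOpen_ball
  exact (h1 z (mem_bl z)).differentiableAt (isOpen_ball.mem_nhds (mem_bl z))

lemma ultra {f : ℝ → ℂ → ℂ} (h : Bdd f) (U : Ultrafilter ℝ) (hU : (U : Filter ℝ) ≤ atTop) :
    ∃ g : ℂ → ℂ, ∀ z, Tendsto (fun T => f T z) U (𝓝 (g z)) := by
  have h1 : ∀ z : ℂ, ∃ w : ℂ, Tendsto (fun T => f T z) U (𝓝 w) := by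
    intro z
    obtain ⟨M, hM⟩ := h.ev (‖z‖ + 1)
    have h2 : ∀ᶠ T in (U : Filter ℝ), f T z ∈ closedBall (0 : ℂ) M := by
      filter_upwards [hM.filter_mono hU] with T hT
      rw [mem_closedBall_zero_iff]
      exact hT.2 z (mem_bl z)
    obtain ⟨w, _, hw⟩ := (isCompact_closedBall (0 : ℂ) M).ultrafilter_le_nhds (U.map fun T => f T z)
      (le_principal_iff.2 h2)
    exact ⟨w, hw⟩
  choose g hg using h1
  exact ⟨g, hg⟩

lemma eq_of_acc {f g : ℂ → ℂ} (hf : Differentiable ℂ f) (hg : Differentiable ℂ g) {A : Set ℂ} {a : ℂ}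
    (ha : AccPt a (𝓟 A)) (h : ∀ z ∈ A, f z = g z) : f = g := by
  have h1 : ∃ᶠ z in 𝓝[≠] a, z ∈ A := frequently_mem_iff_neBot.2 ha
  refine AnalyticOnNhd.eq_of_frequently_eq (z₀ := a) (fun z _ => ?_) (fun z _ => ?_) (h1.mono h)
  · exact hf.analyticAt z
  · exact hg.analyticAt z

/-- Vitali's theorem, with any uniqueness theorem for the limit functions -/
theorem vitali_uniq {f : ℝ → ℂ → ℂ} (h : Bdd f) {A : Set ℂ} (P : (ℂ → ℂ) → Prop)
    (hP : ∀ U : Ultrafilter ℝ, (U : Filter ℝ) ≤ atTop → ∀ g : ℂ → ℂ,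
      (∀ z, Tendsto (fun T => f T z) U (𝓝 (g z))) → P g)
    (huniq : ∀ g₁ g₂ : ℂ → ℂ, P g₁ → P g₂ → (∀ z ∈ A, g₁ z = g₂ z) → g₁ = g₂)
    (hA : ∀ z ∈ A, ∃ w, Tendsto (fun T => f T z) atTop (𝓝 w)) :
    ∃ c : ℂ → ℂ, P c ∧ (∀ z, Tendsto (fun T => f T z) atTop (𝓝 (c z))) := by
  obtain ⟨c, hc⟩ := ultra h (Ultrafilter.of atTop) (Ultrafilter.of_le atTop)
  have hcd : P c := hP _ (Ultrafilter.of_le atTop) c hc
  refine ⟨c, hcd, fun z => ?_⟩
  rw [tendsto_iff_ultrafilter]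
  intro U hU
  obtain ⟨g, hg⟩ := ultra h U hU
  have hgd : P g := hP U hU g hg
  have hgc : g = c := by
    refine huniq g c hgd hcd fun z hz => ?_
    obtain ⟨w, hw⟩ := hA z hz
    have e1 : g z = w := tendsto_nhds_unique (hg z) (hw.mono_left hU)
    have e2 : c z = w := tendsto_nhds_unique (hc z) (hw.mono_left (Ultrafilter.of_le atTop))
    rw [e1, e2]
  rw [← hgc]
  exact hg z

/-- Vitali's theorem -/
theorem vitali {f : ℝ → ℂ → ℂ} (h : Bdd f) {A : Set ℂ} {a : ℂ} (ha : AccPt a (𝓟 A))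
    (hA : ∀ z ∈ A, ∃ w, Tendsto (fun T => f T z) atTop (𝓝 w)) :
    ∃ c : ℂ → ℂ, Differentiable ℂ c ∧ (∀ z, Tendsto (fun T => f T z) atTop (𝓝 (c z))) := by
  obtain ⟨c, hc⟩ := ultra h (Ultrafilter.of atTop) (Ultrafilter.of_le atTop)
  have hcd : Differentiable ℂ c := diff_lim h (Ultrafilter.of_le atTop) hc
  refine ⟨c, hcd, fun z => ?_⟩
  rw [tendsto_iff_ultrafilter]
  intro U hU
  obtain ⟨g, hg⟩ := ultra h U hU
  have hgd : Differentiable ℂ g := diff_lim h hU hg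
  have hgc : g = c := by
    refine eq_of_acc hgd hcd ha fun z hz => ?_
    obtain ⟨w, hw⟩ := hA z hz
    have e1 : g z = w := tendsto_nhds_unique (hg z) (hw.mono_left hU)
    have e2 : c z = w := tendsto_nhds_unique (hc z) (hw.mono_left (Ultrafilter.of_le atTop))
    rw [e1, e2]
  rw [← hgc]
  exact hg z

theorem loc_unif {f : ℝ → ℂ → ℂ} (h : Bdd f) {c : ℂ → ℂ} (hc : ∀ z, Tendsto (fun T => f T z) atTop (𝓝 (c z))) :
    TendstoLocallyUniformly f c atTop := by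
  rw [Metric.tendstoLocallyUniformly_iff]
  intro ε hε x
  have h1 := tlu h le_rfl hc (‖x‖ + 1)
  rw [Metric.tendstoLocallyUniformlyOn_iff] at h1
  obtain ⟨t, ht, h2⟩ := h1 ε hε x (mem_bl x)
  rw [isOpen_ball.nhdsWithin_eq (mem_bl x)] at ht
  exact ⟨t, ht, h2⟩

/-- the derivatives converge -/
lemma derivs {f : ℝ → ℂ → ℂ} (h : Bdd f) {l : Filter ℝ} [l.NeBot] (hl : l ≤ atTop) {g : ℂ → ℂ}
    (hg : ∀ z, Tendsto (fun T => f T z) l (𝓝 (g z))) (n : ℕ) :
    Tendsto (fun T => iteratedDeriv n (f T) 0) l (𝓝 (iteratedDeriv n g 0)) := by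
  have key : ∀ n : ℕ, TendstoLocallyUniformlyOn (fun T => iteratedDeriv n (f T)) (iteratedDeriv n g) l (ball 0 1) ∧
      ∀ᶠ T in l, DifferentiableOn ℂ (iteratedDeriv n (f T)) (ball 0 1) := by
    intro n
    induction n with
    | zero =>
      simp only [iteratedDeriv_zero]
      obtain ⟨M, hM⟩ := h.ev 1
      exact ⟨tlu h hl hg 1, (hM.filter_mono hl).mono fun T hT => hT.1⟩
    | succ n ih =>
      simp only [iteratedDeriv_succ]
      refine ⟨ih.1.deriv ih.2 isOpen_ball, ih.2.mono fun T hT => hT.deriv isOpen_ball⟩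
  exact (key n).1.tendsto_at (mem_ball_self one_pos)

lemma eq_of_derivs {f g : ℂ → ℂ} (hf : Differentiable ℂ f) (hg : Differentiable ℂ g)
    (h : ∀ n : ℕ, iteratedDeriv n f 0 = iteratedDeriv n g 0) : f = g := by
  funext z
  rw [← Complex.taylorSeries_eq_of_entire' (c := 0) (z := z) hf,
    ← Complex.taylorSeries_eq_of_entire' (c := 0) (z := z) hg]
  exact tsum_congr fun n => by rw [h n]

theorem of_derivs {f : ℝ → ℂ → ℂ} (h : Bdd f) {c : ℂ → ℂ} (hc : Differentiable ℂ c)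
    (hd : ∀ n : ℕ, Tendsto (fun T => iteratedDeriv n (f T) 0) atTop (𝓝 (iteratedDeriv n c 0))) (z : ℂ) :
    Tendsto (fun T => f T z) atTop (𝓝 (c z)) := by
  rw [tendsto_iff_ultrafilter]
  intro U hU
  obtain ⟨g, hg⟩ := ultra h U hU
  have hgd : Differentiable ℂ g := diff_lim h hU hg
  have hgc : g = c := eq_of_derivs hgd hc fun n =>
    tendsto_nhds_unique (derivs h hU hg n) ((hd n).mono_left hU)
  rw [← hgc]
  exact hg z

end Pool.Agent.Q231.VT
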