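import Pool.Agent.Q85.Mom.Line
import Pool.Agent.MP27fa52.Param
import Pool.Agent.Q231.VT.Vitali

/-!
# Shifted moments of zeta with complex shifts of size `O(1 / log T)`
-/

set_option autoImplicit false

open Complex Set Filter Topology MeasureTheory Metric

namespace Pool.Agent.Q231.VT

open Pool.Agent.Q85.Mom

/-- `Q_k(α, T)` of the problem, for complex `α` -/
noncomputable def Q (k : ℕ) (α : ℂ) (T : ℝ) : ℂ :=
  (T : ℂ)⁻¹ * ((Real.log T : ℂ) ^ (k ^ 2))⁻¹ *
    ∫ t in (0:ℝ)..T, riemannZeta (1 / 2 + I * α / Real.log T + I * t) ^ k *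
      riemannZeta (1 / 2 + I * α / Real.log T - I * t) ^ k

lemma zx_c {x : ℝ} (hx : |x| ≤ 1 / 4) : Continuous (zx x) := by
  apply zx_cont
  have := (abs_le.1 hx).2
  intro h
  linarith

lemma zxk_c {x : ℝ} (hx : |x| ≤ 1 / 4) (k : ℕ) : Continuous fun t => ‖zx x t‖ ^ (2 * k) :=
  (zx_c hx).norm.pow _

lemma zk_c (k : ℕ) : Continuous fun t => ‖z t‖ ^ (2 * k) := z_cont.norm.pow _

/-- one window -/
lemma window {k : ℕ} (hk : 1 ≤ k) : ∃ C T₀ : ℝ, 0 ≤ C ∧ 3 ≤ T₀ ∧ ∀ S x y : ℝ, T₀ ≤ S → |x| ≤ 1 → C * |x| ≤ 1 →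
    0 ≤ y → -x ≤ y → ∫ t in S..(8 * S), ‖zx x t‖ ^ (2 * k) ≤
      (5 * Real.exp 1 * Real.exp (y * Real.log S)) ^ (2 * k) *
        ∫ t in (S - Real.log S)..(8 * S + Real.log S), ‖z t‖ ^ (2 * k) := by
  obtain ⟨C, T₀, hC, hT₀, h⟩ := line
  set p : ℝ := ((2 * k : ℕ) : ℝ) with hp
  have hp1 : 1 ≤ p := by
    rw [hp]
    exact_mod_cast (by omega : 1 ≤ 2 * k)
  have hp0 : 0 < p := by linarith
  refine ⟨C, max T₀ (C ^ p), by linarith, hT₀.trans (le_max_left _ _), fun S x y hS hx hCx hy hxy => ?_⟩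
  have hS1 : T₀ ≤ S := (le_max_left _ _).trans hS
  have hS2 : C ^ p ≤ S := (le_max_right _ _).trans hS
  have hS3 : 3 ≤ S := hT₀.trans hS1
  have hS0 : 0 < S := by linarith
  have hlog0 : 0 ≤ Real.log S := Real.log_nonneg (by linarith)
  have hlogS : Real.log S ≤ S := Real.log_le_self hS0.le
  have h1 := h p S S (8 * S) (Real.log S / 2) x hp1 hS1 le_rfl (by linarith) le_rfl (by linarith) (by linarith) hx
  set A : ℝ := ∫ t in S..(8 * S), ‖zx x t‖ ^ p with hA
  set A' : ℝ := ∫ t in (S - Real.log S)..(8 * S + Real.log S), ‖z t‖ ^ p with hA'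
  have eA : ∫ t in S..(8 * S), ‖zx x t‖ ^ (2 * k) = A := by
    rw [hA]
    refine intervalIntegral.integral_congr fun t _ => ?_
    simp only [hp, Real.rpow_natCast]
  have eA' : ∫ t in (S - Real.log S)..(8 * S + Real.log S), ‖z t‖ ^ (2 * k) = A' := by
    rw [hA']
    refine intervalIntegral.integral_congr fun t _ => ?_
    simp only [hp, Real.rpow_natCast]
  rw [eA, eA']
  have hA0 : nrm p S (8 * S) (zx x) ^ p = A := nrm_pow hp0 (by linarith) _
  have hA'0 : nrm p (S - Real.log S) (8 * S + Real.log S) z ^ p = A' := nrm_pow hp0 (by linarith) _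
  have hn0 : 0 ≤ nrm p (S - Real.log S) (8 * S + Real.log S) z := nrm_nonneg (by linarith) _
  have hn1 : 0 ≤ nrm p S (8 * S) (zx x) := nrm_nonneg (by linarith) _
  set K : ℝ := 5 * Real.exp 1 * Real.exp (y * Real.log S) with hK
  have hK0 : 0 ≤ K := by positivity
  have h2 : nrm p S (8 * S) (zx x) ≤ K * nrm p (S - Real.log S) (8 * S + Real.log S) z := by
    refine h1.trans (mul_le_mul_of_nonneg_right ?_ hn0)
    rw [hK, mul_assoc, ← Real.exp_add]
    have e1 : 1 + 4 * Real.log S / S ≤ 5 := by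
      have : 4 * Real.log S / S ≤ 4 := by
        rw [div_le_iff₀ hS0]
        linarith
      linarith
    have e2 : Real.exp (|x| * (max (Real.log S / 2) (Real.log S - Real.log S / 2) + C) - Real.log S / 2 * x) ≤
        Real.exp (1 + y * Real.log S) := by
      rw [Real.exp_le_exp]
      have e3 : max (Real.log S / 2) (Real.log S - Real.log S / 2) = Real.log S / 2 := by
        rw [show Real.log S - Real.log S / 2 = Real.log S / 2 by ring, max_self]
      rw [e3]
      have e4 : |x| - x ≤ 2 * y := by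
        rcases abs_cases x with ⟨h5, _⟩ | ⟨h5, _⟩
        · rw [h5]; linarith
        · rw [h5]; linarith
      have e5 := mul_le_mul_of_nonneg_right e4 (by linarith : 0 ≤ Real.log S / 2)
      nlinarith
    exact mul_le_mul e1 e2 (Real.exp_pos _).le (by norm_num)
  rw [← hA0, ← hA'0]
  calc nrm p S (8 * S) (zx x) ^ p ≤ (K * nrm p (S - Real.log S) (8 * S + Real.log S) z) ^ p :=
        Real.rpow_le_rpow hn1 h2 hp0.le
    _ = K ^ p * nrm p (S - Real.log S) (8 * S + Real.log S) z ^ p := Real.mul_rpow hK0 hn0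
    _ = K ^ (2 * k) * nrm p (S - Real.log S) (8 * S + Real.log S) z ^ p := by
        congr 1
        rw [hp, Real.rpow_natCast]

lemma low_bd (M : ℝ) : ∃ K : ℝ, 0 ≤ K ∧ ∀ x t : ℝ, |x| ≤ 1 / 4 → |t| ≤ M → ‖zx x t‖ ≤ K := by
  have hc : IsCompact (Icc (-(1 / 4) : ℝ) (1 / 4) ×ˢ Icc (-M) M) := isCompact_Icc.prod isCompact_Icc
  have hcont : ContinuousOn (fun q : ℝ × ℝ => zx q.1 q.2) (Icc (-(1 / 4) : ℝ) (1 / 4) ×ˢ Icc (-M) M) := by
    intro q hq
    refine ContinuousAt.continuousWithinAt ?_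
    have hne : (1 / 2 + q.1 + q.2 * I : ℂ) ≠ 1 := by
      apply ne_one''
      have := hq.1.2
      intro h
      linarith
    exact ContinuousAt.comp (f := fun q : ℝ × ℝ => (1 / 2 + q.1 + q.2 * I : ℂ)) (g := riemannZeta)
      (differentiableAt_riemannZeta hne).continuousAt (by fun_prop)
  obtain ⟨K, hK⟩ := hc.exists_bound_of_continuousOn hcont
  refine ⟨max K 0, le_max_right _ _, fun x t hx ht => ?_⟩
  exact (hK (x, t) ⟨abs_le.1 hx, abs_le.1 ht⟩).trans (le_max_left _ _)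

/-- the bound for the moments on the critical line -/
def MB (k : ℕ) (B : ℝ) : Prop :=
  0 ≤ B ∧ ∀ T : ℝ, 2 ≤ T → ∫ t in (0 : ℝ)..T, ‖z t‖ ^ (2 * k) ≤ B * T * Real.log T ^ (k ^ 2)

lemma mono_int {g : ℝ → ℝ} (hg : Continuous g) (h0 : ∀ t, 0 ≤ g t) {a b c d : ℝ} (hca : c ≤ a) (hab : a ≤ b)
    (hbd : b ≤ d) : ∫ t in a..b, g t ≤ ∫ t in c..d, g t :=
  intervalIntegral.integral_mono_interval hca hab hbd (Eventually.of_forall h0) (hg.intervalIntegrable _ _)

lemma sumw {k : ℕ} (hk : 1 ≤ k) {B : ℝ} (hB : MB k B) : ∃ C E : ℝ, 0 ≤ C ∧ 0 ≤ E ∧ ∀ T x y : ℝ, 3 ≤ T →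
    |x| ≤ 1 / 4 → C * |x| ≤ 1 → 0 ≤ y → -x ≤ y → ∫ t in (-1 : ℝ)..(T + 1), ‖zx x t‖ ^ (2 * k) ≤
      E + 4 * T * ((5 * Real.exp 1 * Real.exp (y * Real.log T)) ^ (2 * k) * (B * (2 * Real.log T) ^ (k ^ 2))) := by
  obtain ⟨C, T₀, hC, hT₀, h⟩ := window hk
  obtain ⟨K, hK0, hK⟩ := low_bd (8 * T₀ + 1)
  refine ⟨C, (8 * T₀ + 1) * K ^ (2 * k), hC, by positivity, fun T x y hT hx hCx hy hxy => ?_⟩
  set E : ℝ := (8 * T₀ + 1) * K ^ (2 * k) with hE
  have hE0 : 0 ≤ E := by positivity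
  have hT0 : 0 < T := by linarith
  have hlog1 : 1 ≤ Real.log T := by
    rw [Real.le_log_iff_exp_le hT0]
    have := Real.exp_one_lt_d9
    linarith
  set W : ℝ := (5 * Real.exp 1 * Real.exp (y * Real.log T)) ^ (2 * k) * (B * (2 * Real.log T) ^ (k ^ 2)) with hW
  have hB0 := hB.1
  have hW0 : 0 ≤ W := by positivity
  have hgc := zxk_c hx k
  have hg0 : ∀ t, 0 ≤ ‖zx x t‖ ^ (2 * k) := fun t => by positivity
  have base : ∀ b : ℝ, 0 ≤ b → b ≤ 8 * T₀ → ∫ t in (-1 : ℝ)..b, ‖zx x t‖ ^ (2 * k) ≤ E + 2 * W * b := by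
    intro b hb hb8
    have h1 : ∫ t in (-1 : ℝ)..b, ‖zx x t‖ ^ (2 * k) ≤ ∫ t in (-1 : ℝ)..b, K ^ (2 * k) := by
      refine intervalIntegral.integral_mono_on (by linarith) (hgc.intervalIntegrable _ _)
        (continuous_const.intervalIntegrable _ _) fun t ht => ?_
      refine pow_le_pow_left₀ (norm_nonneg _) (hK x t hx ?_) _
      rw [abs_le]
      exact ⟨by linarith [ht.1], by linarith [ht.2]⟩
    rw [intervalIntegral.integral_const, smul_eq_mul] at h1
    have h2 : (b - -1) * K ^ (2 * k) ≤ E := by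
      rw [hE]
      refine mul_le_mul_of_nonneg_right (by linarith) (by positivity)
    have h3 : 0 ≤ 2 * W * b := by positivity
    linarith
  have key : ∀ n : ℕ, ∀ b : ℝ, 0 ≤ b → b ≤ 8 ^ n * (8 * T₀) → b ≤ T + 1 →
      ∫ t in (-1 : ℝ)..b, ‖zx x t‖ ^ (2 * k) ≤ E + 2 * W * b := by
    intro n
    induction n with
    | zero =>
      intro b hb h1 h2
      exact base b hb (by simpa using h1)
    | succ n ih =>
      intro b hb h1 h2
      rcases le_or_gt b (8 * T₀) with h3 | h3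
      · exact base b hb h3
      set S : ℝ := b / 8 with hS
      have hbS : b = 8 * S := by rw [hS]; ring
      have hST : T₀ ≤ S := by linarith
      have hS3 : 3 ≤ S := hT₀.trans hST
      have hS0 : 0 < S := by linarith
      have h4 := ih S hS0.le (by rw [pow_succ] at h1; linarith) (by linarith)
      have h5 := h S x y hST (hx.trans (by norm_num)) hCx hy hxy
      have hlogS : Real.log S ≤ S := Real.log_le_self hS0.le
      have hlogS0 : 0 ≤ Real.log S := Real.log_nonneg (by linarith)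
      have h6 : ∫ t in (S - Real.log S)..(8 * S + Real.log S), ‖z t‖ ^ (2 * k) ≤
          ∫ t in (0 : ℝ)..(9 * S), ‖z t‖ ^ (2 * k) :=
        mono_int (zk_c k) (fun t => by positivity) (by linarith) (by linarith) (by linarith)
      have h7 := hB.2 (9 * S) (by linarith)
      have h8 : Real.log (9 * S) ≤ 2 * Real.log T := by
        rw [← Real.log_rpow hT0, Real.log_le_log_iff (by linarith) (by positivity)]
        rw [show (2 : ℝ) = ((2 : ℕ) : ℝ) by norm_num, Real.rpow_natCast]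
        nlinarith
      have h8' : 0 ≤ Real.log (9 * S) := Real.log_nonneg (by linarith)
      have h9 : B * (9 * S) * Real.log (9 * S) ^ (k ^ 2) ≤ B * (9 * S) * (2 * Real.log T) ^ (k ^ 2) :=
        mul_le_mul_of_nonneg_left (pow_le_pow_left₀ h8' h8 _) (by positivity)
      have h10 : Real.exp (y * Real.log S) ≤ Real.exp (y * Real.log T) := by
        rw [Real.exp_le_exp]
        exact mul_le_mul_of_nonneg_left (Real.log_le_log hS0 (by linarith)) hy
      have h11 : (5 * Real.exp 1 * Real.exp (y * Real.log S)) ^ (2 * k) ≤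
          (5 * Real.exp 1 * Real.exp (y * Real.log T)) ^ (2 * k) :=
        pow_le_pow_left₀ (by positivity) (mul_le_mul_of_nonneg_left h10 (by positivity)) _
      have h12 : ∫ t in S..(8 * S), ‖zx x t‖ ^ (2 * k) ≤ 9 * S * W := by
        refine h5.trans ?_
        calc (5 * Real.exp 1 * Real.exp (y * Real.log S)) ^ (2 * k) *
              ∫ t in (S - Real.log S)..(8 * S + Real.log S), ‖z t‖ ^ (2 * k)
            ≤ (5 * Real.exp 1 * Real.exp (y * Real.log T)) ^ (2 * k) *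
              (B * (9 * S) * (2 * Real.log T) ^ (k ^ 2)) :=
              mul_le_mul h11 (h6.trans (h7.trans h9))
                (intervalIntegral.integral_nonneg (by linarith) fun t _ => by positivity) (by positivity)
          _ = 9 * S * W := by rw [hW]; ring
      have h13 : ∫ t in (-1 : ℝ)..b, ‖zx x t‖ ^ (2 * k) = (∫ t in (-1 : ℝ)..S, ‖zx x t‖ ^ (2 * k)) +
          ∫ t in S..(8 * S), ‖zx x t‖ ^ (2 * k) := by
        rw [hbS, intervalIntegral.integral_add_adjacent_intervals (hgc.intervalIntegrable _ _)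
          (hgc.intervalIntegrable _ _)]
      rw [h13, hbS]
      have h14 : 0 ≤ S * W := by positivity
      nlinarith
  obtain ⟨n, hn⟩ := pow_unbounded_of_one_lt (T + 1) (by norm_num : (1 : ℝ) < 8)
  have h1 := key n (T + 1) (by linarith) (by
    have : (1 : ℝ) ≤ 8 * T₀ := by linarith
    have h8 : (0 : ℝ) < 8 ^ n := by positivity
    nlinarith) le_rfl
  nlinarith

lemma arg1 (α : ℂ) (L t : ℝ) : (1 / 2 + I * α / L + I * t : ℂ) =
    1 / 2 + ((-(α.im / L) : ℝ) : ℂ) + ((t + α.re / L : ℝ) : ℂ) * I := by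
  have h := re_add_im α
  push_cast
  linear_combination (-(I / L)) * h + (α.im / L) * I_mul_I

lemma arg2 (α : ℂ) (L t : ℝ) : (1 / 2 + I * α / L - I * t : ℂ) =
    (starRingEnd ℂ) (1 / 2 + ((-(α.im / L) : ℝ) : ℂ) + ((t - α.re / L : ℝ) : ℂ) * I) := by
  have h := re_add_im α
  rw [map_add, map_add, map_mul, conj_I, Complex.conj_ofReal, Complex.conj_ofReal, map_div₀, map_one, map_ofNat]
  push_cast
  linear_combination (-(I / L)) * h + (α.im / L) * I_mul_I

lemma norm_F (k : ℕ) (α : ℂ) (L t : ℝ) : ‖riemannZeta (1 / 2 + I * α / L + I * t) ^ k *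
    riemannZeta (1 / 2 + I * α / L - I * t) ^ k‖ =
      ‖zx (-(α.im / L)) (t + α.re / L)‖ ^ k * ‖zx (-(α.im / L)) (t - α.re / L)‖ ^ k := by
  rw [arg1, arg2, riemannZeta_conj, norm_mul, norm_pow, norm_pow, Complex.norm_conj]
  rfl

/-- the bound for complex shifts -/
lemma Q_bd {k : ℕ} (hk : 1 ≤ k) {B : ℝ} (hB : MB k B) : ∃ C K : ℝ, 0 ≤ C ∧ 0 ≤ K ∧ ∀ (T : ℝ) (α : ℂ), 3 ≤ T →
    ‖α‖ ≤ Real.log T / 4 → C * ‖α‖ ≤ Real.log T → ‖Q k α T‖ ≤ K * Real.exp (2 * k * max α.im 0) := by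
  obtain ⟨C, E, hC, hE, h⟩ := sumw hk hB
  set K₁ : ℝ := (5 * Real.exp 1) ^ (2 * k) * (B * 2 ^ (k ^ 2)) with hK₁
  have hB0 := hB.1
  have hK₁0 : 0 ≤ K₁ := by positivity
  refine ⟨C, 2 * E + 8 * K₁, hC, by positivity, fun T α hT hα hCα => ?_⟩
  set L : ℝ := Real.log T with hL
  have hT0 : 0 < T := by linarith
  have hL1 : 1 ≤ L := by
    rw [hL, Real.le_log_iff_exp_le hT0]
    have := Real.exp_one_lt_d9
    linarith
  have hL0 : 0 < L := by linarith
  set x : ℝ := -(α.im / L) with hx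
  set s : ℝ := α.re / L with hs
  set y : ℝ := max α.im 0 / L with hy
  have him := abs_im_le_norm α
  have hre := abs_re_le_norm α
  have hx1 : |x| ≤ ‖α‖ / L := by
    rw [hx, abs_neg, abs_div, abs_of_pos hL0]
    exact div_le_div_of_nonneg_right him hL0.le
  have hs1 : |s| ≤ ‖α‖ / L := by
    rw [hs, abs_div, abs_of_pos hL0]
    exact div_le_div_of_nonneg_right hre hL0.le
  have hαL : ‖α‖ / L ≤ 1 / 4 := by
    rw [div_le_iff₀ hL0]
    linarith
  have hx2 : |x| ≤ 1 / 4 := hx1.trans hαL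
  have hs2 := abs_le.1 (hs1.trans hαL)
  have hCx : C * |x| ≤ 1 := by
    refine (mul_le_mul_of_nonneg_left hx1 hC).trans ?_
    rw [← mul_div_assoc, div_le_iff₀ hL0]
    linarith
  have hy0 : 0 ≤ y := div_nonneg (le_max_right _ _) hL0.le
  have hxy : -x ≤ y := by
    rw [hx, hy, neg_neg]
    exact div_le_div_of_nonneg_right (le_max_left _ _) hL0.le
  have h1 := h T x y hT hx2 hCx hy0 hxy
  rw [← hL] at h1
  have hyL : y * L = max α.im 0 := by
    rw [hy]
    field_simp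
  rw [hyL] at h1
  set Ψ : ℝ := ∫ t in (-1 : ℝ)..(T + 1), ‖zx x t‖ ^ (2 * k) with hΨ
  have hgc := zxk_c hx2 k
  have hg0 : ∀ t, 0 ≤ ‖zx x t‖ ^ (2 * k) := fun t => by positivity
  have i1 : ∫ t in (0 : ℝ)..T, ‖zx x (t + s)‖ ^ (2 * k) ≤ Ψ := by
    rw [intervalIntegral.integral_comp_add_right (fun t => ‖zx x t‖ ^ (2 * k))]
    exact mono_int hgc hg0 (by linarith [hs2.1]) (by linarith) (by linarith [hs2.2])
  have i2 : ∫ t in (0 : ℝ)..T, ‖zx x (t - s)‖ ^ (2 * k) ≤ Ψ := by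
    rw [intervalIntegral.integral_comp_sub_right (fun t => ‖zx x t‖ ^ (2 * k))]
    exact mono_int hgc hg0 (by linarith [hs2.2]) (by linarith) (by linarith [hs2.1])
  have c1 : Continuous fun t : ℝ => ‖zx x (t + s)‖ ^ (2 * k) := hgc.comp (by fun_prop)
  have c2 : Continuous fun t : ℝ => ‖zx x (t - s)‖ ^ (2 * k) := hgc.comp (by fun_prop)
  have h2 : ‖∫ t in (0 : ℝ)..T, riemannZeta (1 / 2 + I * α / L + I * t) ^ k *
      riemannZeta (1 / 2 + I * α / L - I * t) ^ k‖ ≤ 2 * Ψ := by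
    have h3 : ‖∫ t in (0 : ℝ)..T, riemannZeta (1 / 2 + I * α / L + I * t) ^ k *
      riemannZeta (1 / 2 + I * α / L - I * t) ^ k‖ ≤
        ∫ t in (0 : ℝ)..T, (‖zx x (t + s)‖ ^ (2 * k) + ‖zx x (t - s)‖ ^ (2 * k)) := by
      refine intervalIntegral.norm_integral_le_of_norm_le hT0.le ?_ ((c1.add c2).intervalIntegrable _ _)
      refine Eventually.of_forall fun t _ => ?_
      rw [norm_F, ← hx, ← hs, mul_comm 2 k, pow_mul, pow_mul]
      nlinarith [sq_nonneg (‖zx x (t + s)‖ ^ k - ‖zx x (t - s)‖ ^ k), sq_nonneg (‖zx x (t + s)‖ ^ k + ‖zx x (t - s)‖ ^ k),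
        sq_nonneg (‖zx x (t + s)‖ ^ k), sq_nonneg (‖zx x (t - s)‖ ^ k)]
    rw [intervalIntegral.integral_add (c1.intervalIntegrable _ _) (c2.intervalIntegrable _ _)] at h3
    linarith
  unfold Q
  rw [← hL, norm_mul, norm_mul, norm_inv, norm_inv, norm_pow, Complex.norm_real, Complex.norm_real,
    Real.norm_of_nonneg hT0.le, Real.norm_of_nonneg hL0.le]
  set X : ℝ := Real.exp (2 * k * max α.im 0) with hX
  have hX1 : 1 ≤ X := by
    apply Real.one_le_exp
    have := le_max_right α.im 0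
    positivity
  have e1 : (5 * Real.exp 1 * Real.exp (max α.im 0)) ^ (2 * k) * (B * (2 * L) ^ (k ^ 2)) =
      K₁ * X * L ^ (k ^ 2) := by
    rw [hK₁, hX, mul_pow, ← Real.exp_nat_mul (max α.im 0), mul_pow 2 L]
    push_cast
    ring
  rw [e1] at h1
  have hLk : 1 ≤ L ^ (k ^ 2) := one_le_pow₀ hL1
  have hLk0 : 0 < L ^ (k ^ 2) := by positivity
  have h4 : T⁻¹ * (L ^ (k ^ 2))⁻¹ * (2 * Ψ) ≤ (2 * E + 8 * K₁) * X := by
    rw [← mul_inv, inv_mul_le_iff₀ (by positivity)]
    have h5 : E ≤ T * L ^ (k ^ 2) * (E * X) := by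
      have h6 : 1 ≤ T * L ^ (k ^ 2) := by nlinarith
      have h7 : E ≤ E * X := le_mul_of_one_le_right hE hX1
      have h8 : 0 ≤ E * X := by positivity
      nlinarith
    nlinarith
  exact (mul_le_mul_of_nonneg_left h2 (by positivity)).trans h4

lemma Q_diff (k : ℕ) {T R : ℝ} (hT : 3 ≤ T) (hR : 4 * R ≤ Real.log T) :
    DifferentiableOn ℂ (fun α => Q k α T) (ball 0 R) := by
  have hT0 : 0 < T := by linarith
  set L : ℝ := Real.log T with hL
  have hL1 : 1 ≤ L := by
    rw [hL, Real.le_log_iff_exp_le hT0]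
    have := Real.exp_one_lt_d9
    linarith
  have hL0 : 0 < L := by linarith
  obtain ⟨K, hK0, hK⟩ := low_bd (T + 1)
  have hb : ∀ α ∈ ball (0 : ℂ) R, |-(α.im / L)| ≤ 1 / 4 ∧ |α.re / L| ≤ 1 / 4 := by
    intro α hα
    rw [mem_ball_zero_iff] at hα
    have him := abs_im_le_norm α
    have hre := abs_re_le_norm α
    rw [abs_neg, abs_div, abs_div, abs_of_pos hL0, div_le_iff₀ hL0, div_le_iff₀ hL0]
    constructor <;> linarith
  have hne : ∀ α ∈ ball (0 : ℂ) R, ∀ t : ℝ, (1 / 2 + I * α / L + I * t : ℂ) ≠ 1 ∧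
      (1 / 2 + I * α / L - I * t : ℂ) ≠ 1 := by
    intro α hα t
    have h1 := (abs_le.1 (hb α hα).1).2
    have hx : -(α.im / L) ≠ 1 / 2 := by
      intro h
      linarith
    constructor
    · rw [arg1]
      exact ne_one'' hx
    · rw [arg2]
      intro h
      apply ne_one'' (x := -(α.im / L)) (t := t - α.re / L) hx
      have h2 := congrArg (starRingEnd ℂ) h
      rwa [Complex.conj_conj, map_one] at h2
  have h1 : DifferentiableOn ℂ (fun α => ∫ t, riemannZeta (1 / 2 + I * α / L + I * t) ^ k *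
      riemannZeta (1 / 2 + I * α / L - I * t) ^ k ∂(volume.restrict (Ioc 0 T))) (ball 0 R) := by
    refine MP27fa52.diffOn_integral isOpen_ball (volume.restrict (Ioc 0 T))
      (fun α t => riemannZeta (1 / 2 + I * α / L + I * t) ^ k * riemannZeta (1 / 2 + I * α / L - I * t) ^ k)
      (fun _ => K ^ k * K ^ k) (integrable_const _) ?_ ?_ ?_
    · intro α hα
      refine Continuous.aestronglyMeasurable ?_
      rw [continuous_iff_continuousAt]
      intro t
      obtain ⟨n1, n2⟩ := hne α hα t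
      have a1 : ContinuousAt (fun t : ℝ => riemannZeta (1 / 2 + I * α / L + I * t)) t :=
        ContinuousAt.comp (f := fun t : ℝ => (1 / 2 + I * α / L + I * t : ℂ)) (g := riemannZeta)
          (differentiableAt_riemannZeta n1).continuousAt (by fun_prop)
      have a2 : ContinuousAt (fun t : ℝ => riemannZeta (1 / 2 + I * α / L - I * t)) t :=
        ContinuousAt.comp (f := fun t : ℝ => (1 / 2 + I * α / L - I * t : ℂ)) (g := riemannZeta)
          (differentiableAt_riemannZeta n2).continuousAt (by fun_prop)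
      exact (a1.pow k).mul (a2.pow k)
    · refine Eventually.of_forall fun t α hα => ?_
      obtain ⟨n1, n2⟩ := hne α hα t
      have a1 : DifferentiableAt ℂ (fun α : ℂ => riemannZeta (1 / 2 + I * α / L + I * t)) α :=
        DifferentiableAt.comp (f := fun α : ℂ => (1 / 2 + I * α / L + I * t : ℂ)) (g := riemannZeta) α
          (differentiableAt_riemannZeta n1) (by fun_prop)
      have a2 : DifferentiableAt ℂ (fun α : ℂ => riemannZeta (1 / 2 + I * α / L - I * t)) α :=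
        DifferentiableAt.comp (f := fun α : ℂ => (1 / 2 + I * α / L - I * t : ℂ)) (g := riemannZeta) α
          (differentiableAt_riemannZeta n2) (by fun_prop)
      exact ((a1.pow k).mul (a2.pow k)).differentiableWithinAt
    · rw [ae_restrict_iff' measurableSet_Ioc]
      refine Eventually.of_forall fun t ht α hα => ?_
      obtain ⟨b1, b2⟩ := hb α hα
      rw [norm_F]
      have b3 := abs_le.1 b2
      have k1 := hK (-(α.im / L)) (t + α.re / L) b1 (by
        rw [abs_le]; constructor <;> linarith [ht.1, ht.2])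
      have k2 := hK (-(α.im / L)) (t - α.re / L) b1 (by
        rw [abs_le]; constructor <;> linarith [ht.1, ht.2])
      exact mul_le_mul (pow_le_pow_left₀ (norm_nonneg _) k1 _) (pow_le_pow_left₀ (norm_nonneg _) k2 _)
        (by positivity) (by positivity)
  unfold Q
  simp only [intervalIntegral.integral_of_le hT0.le]
  exact h1.const_mul _

theorem Q_bdd {k : ℕ} (hk : 1 ≤ k) {B : ℝ} (hB : MB k B) : Bdd fun T α => Q k α T := by
  obtain ⟨C, K, hC, hK, h⟩ := Q_bd hk hB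
  intro R
  have h1 : ∀ᶠ T : ℝ in atTop, 4 * |R| ≤ Real.log T ∧ C * |R| ≤ Real.log T ∧ 3 ≤ T :=
    (Real.tendsto_log_atTop.eventually_ge_atTop _).and ((Real.tendsto_log_atTop.eventually_ge_atTop _).and
      (eventually_ge_atTop _))
  obtain ⟨T₀, hT₀⟩ := eventually_atTop.1 h1
  refine ⟨K * Real.exp (2 * k * |R|), T₀, fun T hT => ?_⟩
  obtain ⟨h2, h3, h4⟩ := hT₀ T hT
  refine ⟨Q_diff k h4 (by linarith [le_abs_self R]), fun α hα => ?_⟩
  rw [mem_ball_zero_iff] at hα
  have h5 : ‖α‖ ≤ |R| := hα.le.trans (le_abs_self R)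
  have h6 := h T α h4 (by linarith) ((mul_le_mul_of_nonneg_left h5 hC).trans h3)
  refine h6.trans (mul_le_mul_of_nonneg_left ?_ hK)
  rw [Real.exp_le_exp]
  refine mul_le_mul_of_nonneg_left (max_le ?_ (abs_nonneg R)) (by positivity)
  exact (le_abs_self _).trans ((abs_im_le_norm α).trans h5)

lemma Q_growth {k : ℕ} (hk : 1 ≤ k) {B : ℝ} (hB : MB k B) {l : Filter ℝ} [l.NeBot] (hl : l ≤ atTop) {c : ℂ → ℂ}
    (hc : ∀ α, Tendsto (fun T => Q k α T) l (𝓝 (c α))) :
    ∃ K : ℝ, ∀ α, ‖c α‖ ≤ K * Real.exp (2 * k * max α.im 0) := by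
  obtain ⟨C, K, hC, hK, h⟩ := Q_bd hk hB
  refine ⟨K, fun α => ?_⟩
  refine le_of_tendsto (hc α).norm (Eventually.filter_mono hl ?_)
  filter_upwards [Real.tendsto_log_atTop.eventually_ge_atTop (4 * ‖α‖),
    Real.tendsto_log_atTop.eventually_ge_atTop (C * ‖α‖), eventually_ge_atTop 3] with T h1 h2 h3
  exact h T α h3 (by linarith) h2

/-- convergence at the shift `0` bounds the moment -/
lemma MB_of {k : ℕ} {w : ℂ} (h : Tendsto (fun T => Q k 0 T) atTop (𝓝 w)) : ∃ B : ℝ, MB k B := by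
  have e0 : ∀ T : ℝ, 0 < T → ‖∫ t in (0:ℝ)..T, riemannZeta (1 / 2 + I * (0 : ℂ) / Real.log T + I * t) ^ k *
      riemannZeta (1 / 2 + I * (0 : ℂ) / Real.log T - I * t) ^ k‖ = ∫ t in (0 : ℝ)..T, ‖z t‖ ^ (2 * k) := by
    intro T hT
    have e1 : ∀ t : ℝ, riemannZeta (1 / 2 + I * (0 : ℂ) / Real.log T + I * t) ^ k *
      riemannZeta (1 / 2 + I * (0 : ℂ) / Real.log T - I * t) ^ k = ((‖z t‖ ^ (2 * k) : ℝ) : ℂ) := by
      intro t
      rw [arg1, arg2, riemannZeta_conj]
      simp only [Complex.zero_re, Complex.zero_im, zero_div, neg_zero, add_zero, sub_zero, Complex.ofReal_zero]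
      rw [← mul_pow, Complex.mul_conj, Complex.normSq_eq_norm_sq, ← Complex.ofReal_pow, ← pow_mul]
      rfl
    simp only [e1]
    rw [intervalIntegral.integral_ofReal, Complex.norm_real, Real.norm_of_nonneg]
    exact intervalIntegral.integral_nonneg hT.le fun t _ => by positivity
  have h1 := h.norm.eventually_lt_const (show ‖w‖ < ‖w‖ + 1 by linarith)
  obtain ⟨T₁, hT₁⟩ := eventually_atTop.1 h1
  set T₂ : ℝ := max T₁ 2 with hT₂
  set J : ℝ := ∫ t in (0 : ℝ)..T₂, ‖z t‖ ^ (2 * k) with hJ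
  have hJ0 : 0 ≤ J := intervalIntegral.integral_nonneg (by
    have := le_max_right T₁ 2
    linarith) fun t _ => by positivity
  have hl2 : 0 < Real.log 2 := Real.log_pos (by norm_num)
  set m : ℝ := 2 * Real.log 2 ^ (k ^ 2) with hm
  have hm0 : 0 < m := by positivity
  refine ⟨(‖w‖ + 1) + J / m, by positivity, fun T hT => ?_⟩
  have hT0 : 0 < T := by linarith
  have hlog : Real.log 2 ≤ Real.log T := Real.log_le_log (by norm_num) hT
  have hlog0 : 0 < Real.log T := by linarith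
  have hg0 : 0 < T * Real.log T ^ (k ^ 2) := by positivity
  have hJm : 0 ≤ J / m := by positivity
  have hw0 : 0 ≤ ‖w‖ + 1 := by positivity
  rcases le_or_gt T₁ T with h2 | h2
  · have h3 := hT₁ T h2
    unfold Q at h3
    rw [norm_mul, norm_mul, norm_inv, norm_inv, norm_pow, Complex.norm_real, Complex.norm_real,
      Real.norm_of_nonneg hT0.le, Real.norm_of_nonneg hlog0.le, e0 T hT0, ← mul_inv,
      inv_mul_lt_iff₀ hg0] at h3
    have h4 : 0 ≤ J / m * (T * Real.log T ^ (k ^ 2)) := by positivity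
    nlinarith
  · have h3 : ∫ t in (0 : ℝ)..T, ‖z t‖ ^ (2 * k) ≤ J :=
      mono_int (zk_c k) (fun t => by positivity) le_rfl hT0.le (h2.le.trans (le_max_left _ _))
    have h4 : m ≤ T * Real.log T ^ (k ^ 2) :=
      mul_le_mul hT (pow_le_pow_left₀ hl2.le hlog _) (by positivity) hT0.le
    have h5 : J ≤ J / m * (T * Real.log T ^ (k ^ 2)) := by
      calc J = J / m * m := by field_simp
        _ ≤ _ := mul_le_mul_of_nonneg_left h4 hJm
    have h6 : 0 ≤ (‖w‖ + 1) * (T * Real.log T ^ (k ^ 2)) := by positivity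
    nlinarith

end Pool.Agent.Q231.VT
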