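import Pool.Agent.Q231.VT.Vitali

/-!
# Zeros of functions bounded in the right half-plane
-/

set_option autoImplicit false

open Complex Set Filter Topology Metric

namespace Pool.Agent.Q231.VT

lemma one_zero {f : ℂ → ℂ} (hf : Differentiable ℂ f) {M : ℝ} (hM : ∀ z : ℂ, 0 ≤ z.re → ‖f z‖ ≤ M) {a : ℝ}
    (ha : 0 < a) (h0 : f a = 0) : ∃ h : ℂ → ℂ, Differentiable ℂ h ∧ (∀ z : ℂ, 0 ≤ z.re → ‖h z‖ ≤ M) ∧
      ∀ z : ℂ, (z + a) * f z = (z - a) * h z := by
  have hM0 : 0 ≤ M := (norm_nonneg _).trans (hM 0 (by simp))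
  have hds : Differentiable ℂ (dslope f (a : ℂ)) := by
    have h1 := (Complex.differentiableOn_dslope (f := f) (c := (a : ℂ)) (s := univ) univ_mem).2 hf.differentiableOn
    exact differentiableOn_univ.1 h1
  set h : ℂ → ℂ := fun z => (z + a) * dslope f (a : ℂ) z with hh
  have hhd : Differentiable ℂ h := (by fun_prop : Differentiable ℂ fun z : ℂ => z + a).mul hds
  have heq : ∀ z : ℂ, (z + a) * f z = (z - a) * h z := by
    intro z
    have h1 := sub_smul_dslope f (a : ℂ) z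
    rw [h0, sub_zero, smul_eq_mul] at h1
    simp only [hh]
    rw [← h1]
    ring
  obtain ⟨K, hK⟩ := (isCompact_closedBall (a : ℂ) 1).exists_bound_of_continuousOn hhd.continuous.continuousOn
  set M' : ℝ := max (M * (1 + 2 * a)) K with hM'
  have hb : ∀ z : ℂ, 0 ≤ z.re → ‖h z‖ ≤ M' := by
    intro z hz
    rcases le_or_gt ‖z - a‖ 1 with h1 | h1
    · exact (hK z (by rwa [mem_closedBall, dist_eq_norm])).trans (le_max_right _ _)
    · refine le_trans ?_ (le_max_left _ _)
      have h2 := congrArg norm (heq z)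
      rw [norm_mul, norm_mul] at h2
      have h3 : ‖z + a‖ ≤ ‖z - a‖ + 2 * a := by
        have e : z + a = (z - a) + ((2 * a : ℝ) : ℂ) := by push_cast; ring
        rw [e]
        refine (norm_add_le _ _).trans ?_
        rw [Complex.norm_real, Real.norm_of_nonneg (by positivity)]
      have h4 : ‖z - a‖ * ‖h z‖ ≤ ‖z - a‖ * (M * (1 + 2 * a)) := by
        rw [← h2]
        calc ‖z + a‖ * ‖f z‖ ≤ (‖z - a‖ + 2 * a) * M := mul_le_mul h3 (hM z hz) (norm_nonneg _) (by positivity)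
          _ ≤ (‖z - a‖ + 2 * a * ‖z - a‖) * M := by
              refine mul_le_mul_of_nonneg_right ?_ hM0
              have : 2 * a * 1 ≤ 2 * a * ‖z - a‖ := mul_le_mul_of_nonneg_left h1.le (by positivity)
              linarith
          _ = _ := by ring
      exact le_of_mul_le_mul_left h4 (by linarith)
  refine ⟨h, hhd, fun z hz => ?_, heq⟩
  refine PhragmenLindelof.right_half_plane_of_bounded_on_real (f := h) (C := M) hhd.diffContOnCl
    ⟨1, by norm_num, 0, ?_⟩ ?_ ?_ hz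
  · refine Asymptotics.IsBigO.of_bound M' ?_
    refine eventually_inf_principal.2 (Eventually.of_forall fun s hs => ?_)
    rw [zero_mul, Real.exp_zero, norm_one, mul_one]
    exact hb s (le_of_lt hs)
  · refine ⟨M', ?_⟩
    rw [eventually_map]
    filter_upwards [eventually_ge_atTop (0 : ℝ)] with x hx
    exact hb x (by simpa using hx)
  · intro x
    have h2 := congrArg norm (heq (x * I))
    rw [norm_mul, norm_mul] at h2
    have e : ‖(x : ℂ) * I + a‖ = ‖(x : ℂ) * I - a‖ := by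
      have e1 : (x : ℂ) * I + a = ((a : ℝ) : ℂ) + ((x : ℝ) : ℂ) * I := by ring
      have e2 : (x : ℂ) * I - a = ((-a : ℝ) : ℂ) + ((x : ℝ) : ℂ) * I := by push_cast; ring
      rw [e1, e2, Complex.norm_add_mul_I, Complex.norm_add_mul_I]
      congr 1
      ring
    have hpos : 0 < ‖(x : ℂ) * I - a‖ := by
      rw [norm_pos_iff]
      intro h3
      have := congrArg Complex.re h3
      simp at this
      linarith
    rw [e] at h2
    have h3 := mul_left_cancel₀ hpos.ne' h2
    rw [← h3]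
    exact hM _ (by simp)

lemma many (F : Finset ℝ) : ∀ {f : ℂ → ℂ}, Differentiable ℂ f → ∀ {M : ℝ}, (∀ z : ℂ, 0 ≤ z.re → ‖f z‖ ≤ M) →
    (∀ a ∈ F, 0 < a ∧ f a = 0) → ∀ x : ℝ, 0 ≤ x → ‖f x‖ * ∏ a ∈ F, (x + a) ≤ M * ∏ a ∈ F, |x - a| := by
  classical
  induction F using Finset.induction_on with
  | empty =>
    intro f hf M hM _ x hx
    simpa using hM x (by simpa using hx)
  | insert a F ha ih =>
    intro f hf M hM hF x hx
    obtain ⟨ha0, hfa⟩ := hF a (Finset.mem_insert_self a F)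
    obtain ⟨h, hh, hhM, heq⟩ := one_zero hf hM ha0 hfa
    have hz : ∀ b ∈ F, 0 < b ∧ h b = 0 := by
      intro b hb
      obtain ⟨hb0, hfb⟩ := hF b (Finset.mem_insert_of_mem hb)
      refine ⟨hb0, ?_⟩
      have h1 := heq b
      rw [hfb, mul_zero] at h1
      have hne : ((b : ℂ) - a) ≠ 0 := by
        rw [sub_ne_zero]
        intro h2
        apply ha
        have := Complex.ofReal_injective h2
        rwa [this] at hb
      exact (mul_eq_zero.1 h1.symm).resolve_left hne
    have h1 := ih hh hhM hz x hx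
    rw [Finset.prod_insert ha, Finset.prod_insert ha]
    have h2 := congrArg norm (heq x)
    rw [norm_mul, norm_mul] at h2
    have e1 : ‖(x : ℂ) + a‖ = x + a := by
      rw [← Complex.ofReal_add, Complex.norm_real, Real.norm_of_nonneg (by linarith)]
    have e2 : ‖(x : ℂ) - a‖ = |x - a| := by
      rw [← Complex.ofReal_sub, Complex.norm_real, Real.norm_eq_abs]
    rw [e1, e2] at h2
    calc ‖f x‖ * ((x + a) * ∏ b ∈ F, (x + b)) = ((x + a) * ‖f x‖) * ∏ b ∈ F, (x + b) := by ring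
      _ = |x - a| * (‖h x‖ * ∏ b ∈ F, (x + b)) := by rw [h2]; ring
      _ ≤ |x - a| * (M * ∏ b ∈ F, |x - b|) := mul_le_mul_of_nonneg_left h1 (abs_nonneg _)
      _ = _ := by ring

lemma factor {x a : ℝ} (hx1 : 1 ≤ x) (hx2 : x ≤ 2) (ha : 1 ≤ a) :
    |x - a| ≤ Real.exp (-(1 / (1 + a))) * (x + a) := by
  have h1 : 1 - 1 / (1 + a) ≤ Real.exp (-(1 / (1 + a))) := by
    have := Real.add_one_le_exp (-(1 / (1 + a)))
    linarith
  have h2 : |x - a| ≤ (1 - 1 / (1 + a)) * (x + a) := by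
    have e : (1 - 1 / (1 + a)) * (x + a) = (x + a) - (x + a) / (1 + a) := by ring
    rw [e]
    have h3 : (x + a) / (1 + a) ≤ 2 := by
      rw [div_le_iff₀ (by linarith)]
      linarith
    rw [abs_le]
    constructor <;> linarith
  exact h2.trans (mul_le_mul_of_nonneg_right h1 (by linarith))

lemma zero_of_freq {f : ℂ → ℂ} (hf : Differentiable ℂ f) {a : ℝ} {S : Set ℝ} (ha : AccPt a (𝓟 S))
    (hz : ∀ x ∈ S, f x = 0) : ∀ z, f z = 0 := by
  have h1 : ∃ᶠ x in 𝓝[≠] a, x ∈ S := frequently_mem_iff_neBot.2 ha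
  have h2 : Tendsto (fun x : ℝ => (x : ℂ)) (𝓝[≠] a) (𝓝[≠] (a : ℂ)) := by
    refine tendsto_nhdsWithin_iff.2 ⟨?_, ?_⟩
    · exact (Complex.continuous_ofReal.tendsto a).mono_left nhdsWithin_le_nhds
    · filter_upwards [self_mem_nhdsWithin] with x hx
      simpa using hx
  have h3 : ∃ᶠ z in 𝓝[≠] (a : ℂ), f z = (fun _ => (0 : ℂ)) z :=
    h2.frequently (h1.mono fun x hx => hz x hx)
  have h4 := AnalyticOnNhd.eq_of_frequently_eq (f := f) (g := fun _ => (0 : ℂ)) (z₀ := (a : ℂ))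
    (fun z _ => hf.analyticAt z) (fun z _ => analyticAt_const) h3
  intro z
  exact congrFun h4 z

/-- a Müntz type theorem -/
theorem muntz {f : ℂ → ℂ} (hf : Differentiable ℂ f) {M : ℝ} (hM : ∀ z : ℂ, 0 ≤ z.re → ‖f z‖ ≤ M) {S : Set ℝ}
    (hS : ∀ a ∈ S, 0 ≤ a) (hdiv : ¬ Summable fun a : S => 1 / (1 + (a : ℝ))) (hz : ∀ a ∈ S, f a = 0) :
    ∀ z, f z = 0 := by
  classical
  by_cases hacc : ∃ a : ℝ, AccPt a (𝓟 S)
  · obtain ⟨a, ha⟩ := hacc
    exact zero_of_freq hf ha hz
  have hfin : (S ∩ Icc 0 1).Finite := by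
    by_contra hinf
    obtain ⟨x, _, hx⟩ := Set.Infinite.exists_accPt_of_subset_isCompact (K := Icc (0 : ℝ) 1) hinf
      isCompact_Icc inter_subset_right
    exact hacc ⟨x, hx.mono (principal_mono.2 inter_subset_left)⟩
  set f0 : ℝ → ℝ := fun x => 1 / (1 + x) with hf0
  have hdiv' : ¬ Summable (S.indicator f0) := by
    intro h
    exact hdiv (summable_subtype_iff_indicator.2 h)
  have hsum : S.indicator f0 = (S ∩ Icc 0 1).indicator f0 + (S ∩ Ioi 1).indicator f0 := by
    funext x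
    simp only [Pi.add_apply]
    by_cases hx : x ∈ S
    · rcases le_or_gt x 1 with h1 | h1
      · rw [indicator_of_mem hx, indicator_of_mem (show x ∈ S ∩ Icc 0 1 from ⟨hx, hS x hx, h1⟩),
          indicator_of_notMem (fun h : x ∈ S ∩ Ioi 1 => not_lt.2 h1 h.2), add_zero]
      · rw [indicator_of_mem hx, indicator_of_notMem (fun h : x ∈ S ∩ Icc 0 1 => not_le.2 h1 h.2.2),
          indicator_of_mem (show x ∈ S ∩ Ioi 1 from ⟨hx, h1⟩), zero_add]
    · rw [indicator_of_notMem hx, indicator_of_notMem (fun h : x ∈ S ∩ Icc 0 1 => hx h.1),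
        indicator_of_notMem (fun h : x ∈ S ∩ Ioi 1 => hx h.1), add_zero]
  have hdiv2 : ¬ Summable ((S ∩ Ioi 1).indicator f0) := by
    intro h
    apply hdiv'
    rw [hsum]
    refine Summable.add ?_ h
    refine summable_of_hasFiniteSupport (hfin.subset ?_)
    exact support_indicator_subset
  have hpos : ∀ x, 0 ≤ (S ∩ Ioi 1).indicator f0 x := by
    intro x
    refine indicator_nonneg (fun y hy => ?_) x
    have : (1 : ℝ) < y := hy.2
    simp only [hf0]
    positivity
  have hbig : ∀ C : ℝ, ∃ u : Finset ℝ, C < ∑ x ∈ u, (S ∩ Ioi 1).indicator f0 x := by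
    intro C
    by_contra hno
    push Not at hno
    exact hdiv2 (summable_of_sum_le hpos hno)
  have hzero : ∀ x : ℝ, 1 ≤ x → x ≤ 2 → f x = 0 := by
    intro x hx1 hx2
    have hM0 : 0 ≤ M := (norm_nonneg _).trans (hM 0 (by simp))
    have hle : ∀ C : ℝ, ‖f x‖ ≤ M * Real.exp (-C) := by
      intro C
      obtain ⟨u, hu⟩ := hbig C
      set F : Finset ℝ := u.filter fun y => y ∈ S ∩ Ioi 1 with hF
      have hFm : ∀ a ∈ F, a ∈ S ∧ 1 < a := fun a ha => (Finset.mem_filter.1 ha).2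
      have h1 := many F hf hM (fun a ha => ⟨by linarith [(hFm a ha).2], hz a (hFm a ha).1⟩) x (by linarith)
      have h2 : ∑ a ∈ F, f0 a = ∑ y ∈ u, (S ∩ Ioi 1).indicator f0 y := by
        rw [hF, Finset.sum_filter]
        refine Finset.sum_congr rfl fun y _ => ?_
        by_cases hy : y ∈ S ∩ Ioi 1
        · rw [if_pos hy, indicator_of_mem hy]
        · rw [if_neg hy, indicator_of_notMem hy]
      have h3 : ∏ a ∈ F, |x - a| ≤ Real.exp (-C) * ∏ a ∈ F, (x + a) := by
        have h4 : ∏ a ∈ F, |x - a| ≤ ∏ a ∈ F, (Real.exp (-(1 / (1 + a))) * (x + a)) :=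
          Finset.prod_le_prod (fun a _ => abs_nonneg _) fun a ha => factor hx1 hx2 (hFm a ha).2.le
        refine h4.trans ?_
        rw [Finset.prod_mul_distrib, ← Real.exp_sum, Finset.sum_neg_distrib]
        refine mul_le_mul_of_nonneg_right (Real.exp_le_exp.2 ?_)
          (Finset.prod_nonneg fun a ha => by linarith [(hFm a ha).2])
        have h5 : ∑ a ∈ F, 1 / (1 + a) = ∑ a ∈ F, f0 a := rfl
        rw [h5, h2]
        linarith
      have hP : 0 < ∏ a ∈ F, (x + a) := Finset.prod_pos fun a ha => by linarith [(hFm a ha).2]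
      have h6 : ‖f x‖ * ∏ a ∈ F, (x + a) ≤ (M * Real.exp (-C)) * ∏ a ∈ F, (x + a) := by
        refine h1.trans ((mul_le_mul_of_nonneg_left h3 hM0).trans (le_of_eq ?_))
        ring
      exact le_of_mul_le_mul_right h6 hP
    have ht : Tendsto (fun C : ℝ => M * Real.exp (-C)) atTop (𝓝 (M * 0)) :=
      (Real.tendsto_exp_neg_atTop_nhds_zero).const_mul M
    rw [mul_zero] at ht
    exact norm_le_zero_iff.1 (ge_of_tendsto ht (Eventually.of_forall hle))
  have hacc1 : ∃ a : ℝ, AccPt a (𝓟 (Icc (1 : ℝ) 2)) := by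
    obtain ⟨x, _, hx⟩ := Set.Infinite.exists_accPt_of_subset_isCompact (K := Icc (1 : ℝ) 2)
      (Icc_infinite (by norm_num)) isCompact_Icc Subset.rfl
    exact ⟨x, hx⟩
  obtain ⟨a, ha⟩ := hacc1
  exact zero_of_freq hf ha fun x hx => hzero x hx.1 hx.2

end Pool.Agent.Q231.VT
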