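import Pool.Agent.Q85.Mom.Bern
import Pool.Agent.Q231.VT.Vitali

/-!
# Uniqueness: a function of exponential type `1`, bounded on the real line, with a zero in every interval of length `θ < π`
-/

set_option autoImplicit false

open Complex Set Filter Topology Metric

namespace Pool.Agent.Q231.VT

open Pool.Agent.Q85.Mom

lemma half_real {F : ℂ → ℂ} (hF : Differentiable ℂ F) {m : ℝ} (hm : 0 < m)
    (h : ∀ w, ‖F w‖ ≤ m * Real.exp |w.im|) {θ : ℝ} (hθ : θ < Real.pi) {x u : ℝ} (h1 : x ≤ u) (h2 : u ≤ x + θ / 2)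
    (hu : F u = 0) : ‖F x‖ ≤ m * Real.sin (θ / 2) := by
  have hpi := Real.pi_pos
  set b : ℝ := u - x with hb
  have hb0 : 0 ≤ b := by linarith
  have hbθ : b ≤ θ / 2 := by linarith
  have hsin : Real.sin b ≤ Real.sin (θ / 2) :=
    Real.sin_le_sin_of_le_of_le_pi_div_two (by linarith) (by linarith) hbθ
  have hsin0 : 0 ≤ Real.sin b := Real.sin_nonneg_of_nonneg_of_le_pi hb0 (by linarith)
  rcases eq_or_lt_of_le hb0 with h3 | h3
  · have e : x = u := by linarith
    rw [e, hu, norm_zero]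
    have : 0 ≤ Real.sin (θ / 2) := hsin0.trans hsin
    positivity
  set g : ℂ → ℂ := fun w => F (x + w) / m with hg
  have hgd : Differentiable ℂ g := (hF.comp (by fun_prop)).div_const _
  have hgb : ∀ w, ‖g w‖ ≤ Real.exp |w.im| := by
    intro w
    simp only [hg]
    rw [norm_div, Complex.norm_real, Real.norm_of_nonneg hm.le, div_le_iff₀ hm]
    have := h (x + w)
    rw [Complex.add_im, Complex.ofReal_im, zero_add] at this
    linarith
  have h4 : ∀ N : ℕ, 1 ≤ N → ‖g 0‖ ≤ Real.sin b + 6 * b / (N * Real.pi - b) := by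
    intro N hN
    have h5 := LS2 hgd h3 (by linarith) hN (fun w _ => hgb w)
    have e : g b = 0 := by
      simp only [hg]
      rw [show ((x : ℂ) + (b : ℂ)) = (u : ℂ) by rw [hb]; push_cast; ring, hu, zero_div]
    rw [e, mul_zero, sub_zero] at h5
    exact h5
  have h6 : ‖g 0‖ ≤ Real.sin b := by
    have ht : Tendsto (fun N : ℕ => Real.sin b + 6 * b / (N * Real.pi - b)) atTop (𝓝 (Real.sin b + 0)) := by
      refine tendsto_const_nhds.add (Tendsto.div_atTop tendsto_const_nhds ?_)
      exact tendsto_atTop_add_const_right _ _ ((tendsto_natCast_atTop_atTop).atTop_mul_const hpi)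
    rw [add_zero] at ht
    refine ge_of_tendsto ht (eventually_atTop.2 ⟨1, h4⟩)
  have e0 : ‖F x‖ = m * ‖g 0‖ := by
    simp only [hg]
    rw [add_zero, norm_div, Complex.norm_real, Real.norm_of_nonneg hm.le]
    field_simp
  rw [e0]
  exact mul_le_mul_of_nonneg_left (h6.trans hsin) hm.le

lemma pl_up {F : ℂ → ℂ} (hF : Differentiable ℂ F) {m m' : ℝ} (h : ∀ w, ‖F w‖ ≤ m * Real.exp |w.im|)
    (hr : ∀ x : ℝ, ‖F x‖ ≤ m') {w : ℂ} (hw : 0 ≤ w.im) : ‖F w‖ ≤ m' * Real.exp w.im := by
  set G : ℂ → ℂ := fun s => F (I * s) * cexp (-s) with hG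
  have hGd : Differentiable ℂ G := (hF.comp (by fun_prop)).mul (by fun_prop)
  have hGb : ∀ s : ℂ, 0 ≤ s.re → ‖G s‖ ≤ m := by
    intro s hs
    simp only [hG]
    rw [norm_mul, Complex.norm_exp]
    have h1 := h (I * s)
    have e1 : (I * s).im = s.re := by simp
    rw [e1, abs_of_nonneg hs] at h1
    have e2 : (-s).re = -s.re := rfl
    rw [e2, Real.exp_neg]
    have h2 : 0 < Real.exp s.re := Real.exp_pos _
    rw [← div_eq_mul_inv, div_le_iff₀ h2]
    exact h1
  have h1 := PhragmenLindelof.right_half_plane_of_bounded_on_real (f := G) (C := m') (z := -I * w)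
    hGd.diffContOnCl ⟨1, by norm_num, 0, ?_⟩ ?_ ?_ ?_
  · simp only [hG] at h1
    rw [show I * (-I * w) = w by
      linear_combination (-w) * I_mul_I, norm_mul, Complex.norm_exp] at h1
    have e2 : (-(-I * w)).re = -w.im := by simp
    rw [e2, Real.exp_neg, ← div_eq_mul_inv, div_le_iff₀ (Real.exp_pos _)] at h1
    exact h1
  · refine Asymptotics.IsBigO.of_bound m ?_
    refine eventually_inf_principal.2 (Eventually.of_forall fun s hs => ?_)
    rw [zero_mul, Real.exp_zero, norm_one, mul_one]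
    exact hGb s (le_of_lt hs)
  · refine ⟨m, ?_⟩
    rw [eventually_map]
    filter_upwards [eventually_ge_atTop (0 : ℝ)] with x hx
    exact hGb x (by simpa using hx)
  · intro x
    simp only [hG]
    rw [norm_mul, Complex.norm_exp]
    have e1 : I * ((x : ℂ) * I) = ((-x : ℝ) : ℂ) := by
      push_cast
      linear_combination (x : ℂ) * I_mul_I
    rw [e1]
    have e2 : (-((x : ℂ) * I)).re = 0 := by simp
    rw [e2, Real.exp_zero, mul_one]
    exact hr (-x)
  · simp only [neg_mul, neg_re, mul_re, I_re, zero_mul, I_im, one_mul, zero_sub, neg_neg]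
    exact hw

theorem samp_uniq {F : ℂ → ℂ} (hF : Differentiable ℂ F) {m₀ : ℝ} (h : ∀ w, ‖F w‖ ≤ m₀ * Real.exp |w.im|)
    {θ : ℝ} (hθ : θ < Real.pi) (hz : ∀ x : ℝ, ∃ u : ℝ, x ≤ u ∧ u ≤ x + θ ∧ F u = 0) : ∀ w, F w = 0 := by
  have hpi := Real.pi_pos
  have hθ0 : 0 ≤ θ := by
    obtain ⟨u, h1, h2, _⟩ := hz 0
    linarith
  set q : ℝ := Real.sin (θ / 2) with hq
  have hq0 : 0 ≤ q := Real.sin_nonneg_of_nonneg_of_le_pi (by linarith) (by linarith)
  have hq1 : q < 1 := by
    rw [hq, ← Real.sin_pi_div_two]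
    exact Real.sin_lt_sin_of_lt_of_le_pi_div_two (by linarith) le_rfl (by linarith)
  have step : ∀ m : ℝ, 0 < m → (∀ w, ‖F w‖ ≤ m * Real.exp |w.im|) → ∀ w, ‖F w‖ ≤ (m * q) * Real.exp |w.im| := by
    intro m hm hb
    have hFn : Differentiable ℂ fun w => F (-w) := hF.comp (by fun_prop)
    have hbn : ∀ w, ‖F (-w)‖ ≤ m * Real.exp |w.im| := by
      intro w
      have := hb (-w)
      rwa [Complex.neg_im, abs_neg] at this
    have hr : ∀ x : ℝ, ‖F x‖ ≤ m * q := by
      intro x
      obtain ⟨u, h1, h2, h3⟩ := hz (x - θ / 2)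
      rcases le_or_gt x u with h4 | h4
      · exact half_real hF hm hb hθ h4 (by linarith) h3
      · have h5 := half_real (F := fun w => F (-w)) hFn hm hbn hθ (x := -x) (u := -u) (by linarith)
          (by linarith) (by simpa using h3)
        simpa using h5
    intro w
    rcases le_or_gt 0 w.im with h1 | h1
    · rw [abs_of_nonneg h1]
      exact pl_up hF hb hr h1
    · rw [abs_of_neg h1]
      have h2 := pl_up (F := fun w => F (-w)) (w := -w) hFn hbn (fun x => by
        have := hr (-x)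
        simpa using this) (by rw [Complex.neg_im]; linarith)
      simpa using h2
  set m₁ : ℝ := |m₀| + 1 with hm₁
  have hm₁0 : 0 < m₁ := by positivity
  have h1 : ∀ w, ‖F w‖ ≤ m₁ * Real.exp |w.im| := fun w =>
    (h w).trans (mul_le_mul_of_nonneg_right (by linarith [le_abs_self m₀]) (Real.exp_pos _).le)
  rcases eq_or_lt_of_le hq0 with hq2 | hq2
  · intro w
    have := step m₁ hm₁0 h1 w
    rw [← hq2, mul_zero, zero_mul] at this
    exact norm_le_zero_iff.1 this
  have key : ∀ n : ℕ, ∀ w, ‖F w‖ ≤ (m₁ * q ^ n) * Real.exp |w.im| := by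
    intro n
    induction n with
    | zero => simpa using h1
    | succ n ih =>
      have := step (m₁ * q ^ n) (by positivity) ih
      intro w
      have h3 := this w
      rwa [mul_assoc m₁, ← pow_succ] at h3
  intro w
  have ht : Tendsto (fun n : ℕ => (m₁ * q ^ n) * Real.exp |w.im|) atTop (𝓝 ((m₁ * 0) * Real.exp |w.im|)) :=
    ((tendsto_pow_atTop_nhds_zero_of_lt_one hq0 hq1).const_mul m₁).mul_const _
  rw [mul_zero, zero_mul] at ht
  exact norm_le_zero_iff.1 (ge_of_tendsto ht (Eventually.of_forall fun n => key n w))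

end Pool.Agent.Q231.VT
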